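import Mathlib
import Pool.Agent.Q157.SS.Stm

/-!
# Project SS, job SS-lll: the local lemma, counting form
-/

set_option autoImplicit false

namespace Pool.Agent.Q153.SS

open Finset Pool.Agent.Q157.SS

section

variable {X I : Type} [Fintype X] [DecidableEq I] (B : I → X → Prop)

open Classical in
/-- the number of the `x` avoiding `J` -/
noncomputable def nn (J : Finset I) : ℕ := (univ.filter fun x : X => ∀ j ∈ J, ¬ B j x).card

open Classical in
/-- the number of the `x` in `B i` avoiding `J` -/
noncomputable def mm (i : I) (J : Finset I) : ℕ :=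
  (univ.filter fun x : X => B i x ∧ ∀ j ∈ J, ¬ B j x).card

theorem nn_eq (J : Finset I) : Nat.card {x : X // ∀ j ∈ J, ¬ B j x} = nn B J := by
  classical
  unfold nn
  rw [Nat.card_eq_fintype_card, Fintype.card_subtype]

theorem mm_eq (i : I) (J : Finset I) : Nat.card {x : X // B i x ∧ ∀ j ∈ J, ¬ B j x} = mm B i J := by
  classical
  unfold mm
  rw [Nat.card_eq_fintype_card, Fintype.card_subtype]

theorem mm_mono (i : I) {J J' : Finset I} (h : J' ⊆ J) : mm B i J ≤ mm B i J' := by
  classical
  unfold mm
  apply card_le_card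
  intro x hx
  rw [mem_filter] at hx ⊢
  exact ⟨hx.1, hx.2.1, fun j hj => hx.2.2 j (h hj)⟩

theorem nn_insert (i : I) (J : Finset I) : nn B J = nn B (insert i J) + mm B i J := by
  classical
  unfold nn mm
  rw [← card_union_of_disjoint]
  · congr 1
    ext x
    simp only [mem_filter, mem_univ, true_and, mem_union, mem_insert]
    constructor
    · intro h
      by_cases hx : B i x
      · exact Or.inr ⟨hx, h⟩
      · left
        rintro j (rfl | hj)
        · exact hx
        · exact h j hj
    · rintro (h | h)
      · exact fun j hj => h j (Or.inr hj)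
      · exact h.2
  · rw [disjoint_left]
    intro x hx hx'
    rw [mem_filter] at hx hx'
    exact hx.2 i (mem_insert_self i J) hx'.2.1

theorem nn_split (J J1 J2 : Finset I) (h : J ⊆ J1 ∪ J2) :
    nn B J2 ≤ nn B J + ∑ j ∈ J1, mm B j J2 := by
  classical
  have h1 : (univ.filter fun x : X => ∀ j ∈ J2, ¬ B j x) ⊆
      (univ.filter fun x : X => ∀ j ∈ J, ¬ B j x) ∪
        J1.biUnion fun j => univ.filter fun x : X => B j x ∧ ∀ k ∈ J2, ¬ B k x := by
    intro x hx
    rw [mem_filter] at hx
    rw [mem_union, mem_filter, mem_biUnion]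
    by_cases hc : ∀ j ∈ J, ¬ B j x
    · exact Or.inl ⟨mem_univ _, hc⟩
    · right
      push Not at hc
      obtain ⟨j, hj, hjx⟩ := hc
      rcases mem_union.1 (h hj) with h2 | h2
      · exact ⟨j, h2, mem_filter.2 ⟨mem_univ _, hjx, hx.2⟩⟩
      · exact absurd hjx (hx.2 j h2)
  unfold nn mm
  refine (card_le_card h1).trans ((card_union_le _ _).trans ?_)
  exact Nat.add_le_add_left card_biUnion_le _

end

/-- **JOB lll** -/
theorem lll : S_lll := by
  classical
  intro X I _ _ _ B w nb _ S hw hnb hev hsum
  have key : ∀ n : ℕ, ∀ J : Finset I, J.card = n → J ⊆ S → ∀ i ∈ S,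
      (mm B i J : ℝ) ≤ 2 * w i * nn B J := by
    intro n
    induction n using Nat.strong_induction_on with
    | _ n ih =>
      intro J hJn hJS i hi
      set J1 := J.filter (fun j => nb i j) with hJ1
      set J2 := J.filter (fun j => ¬ nb i j) with hJ2
      have hJ2S : J2 ⊆ S := (filter_subset _ _).trans hJS
      have h1 : (mm B i J : ℝ) ≤ w i * nn B J2 := by
        have h2 : (mm B i J : ℝ) ≤ mm B i J2 := by exact_mod_cast mm_mono B i (filter_subset _ _)
        have h3 := hev i hi J2 hJ2S (fun j hj => (mem_filter.1 hj).2)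
        rw [mm_eq, nn_eq] at h3
        exact h2.trans h3
      have hwi := hw i hi
      by_cases hemp : J1 = ∅
      · have h2 : J2 = J := by
          rw [hJ2, filter_eq_self]
          intro j hj hn
          have : j ∈ J1 := mem_filter.2 ⟨hj, hn⟩
          rw [hemp] at this
          exact absurd this (notMem_empty j)
        rw [h2] at h1
        have h3 : (0 : ℝ) ≤ nn B J := Nat.cast_nonneg _
        nlinarith
      · have hlt : J2.card < n := by
          obtain ⟨j, hj⟩ := nonempty_iff_ne_empty.2 hemp
          rw [← hJn]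
          apply card_lt_card
          refine ⟨filter_subset _ _, fun hsub => ?_⟩
          have h4 := (mem_filter.1 (hsub (mem_filter.1 hj).1)).2
          exact h4 (mem_filter.1 hj).2
        have h2 : ∀ j ∈ J1, (mm B j J2 : ℝ) ≤ 2 * w j * nn B J2 := fun j hj =>
          ih J2.card hlt J2 rfl hJ2S j (hJS (mem_filter.1 hj).1)
        have h3 : (nn B J2 : ℝ) ≤ nn B J + ∑ j ∈ J1, (mm B j J2 : ℝ) := by
          have h4 := nn_split B J J1 J2 (by
            intro j hj
            rw [mem_union, hJ1, hJ2, mem_filter, mem_filter]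
            by_cases h5 : nb i j
            · exact Or.inl ⟨hj, h5⟩
            · exact Or.inr ⟨hj, h5⟩)
          exact_mod_cast h4
        have h4 : ∑ j ∈ J1, (mm B j J2 : ℝ) ≤ 1 / 2 * nn B J2 := by
          calc ∑ j ∈ J1, (mm B j J2 : ℝ) ≤ ∑ j ∈ J1, 2 * w j * nn B J2 := Finset.sum_le_sum h2
            _ = 2 * (∑ j ∈ J1, w j) * nn B J2 := by
              rw [← Finset.sum_mul, ← Finset.mul_sum]
            _ ≤ 2 * (1 / 4) * nn B J2 := by
              have h5 : ∑ j ∈ J1, w j ≤ 1 / 4 := by
                refine le_trans ?_ (hsum i hi)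
                refine Finset.sum_le_sum_of_subset_of_nonneg ?_ fun j hj _ => hw j (mem_filter.1 hj).1
                intro j hj
                exact mem_filter.2 ⟨hJS (mem_filter.1 hj).1, (mem_filter.1 hj).2⟩
              have h6 : (0 : ℝ) ≤ nn B J2 := Nat.cast_nonneg _
              nlinarith
            _ = 1 / 2 * nn B J2 := by ring
        have h5 : (nn B J2 : ℝ) ≤ 2 * nn B J := by linarith
        nlinarith
  have hpos : ∀ J : Finset I, J ⊆ S → 0 < (nn B J : ℝ) := by
    intro J
    induction J using Finset.induction_on with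
    | empty =>
      intro _
      have : 0 < nn B (∅ : Finset I) := by
        unfold nn
        rw [card_pos]
        exact ⟨Classical.arbitrary X, by simp⟩
      exact_mod_cast this
    | insert i J hi ih =>
      intro hS
      have h1 := ih ((subset_insert _ _).trans hS)
      have hiS : i ∈ S := hS (mem_insert_self _ _)
      have h2 := key J.card J rfl ((subset_insert _ _).trans hS) i hiS
      have h3 : (nn B J : ℝ) = nn B (insert i J) + mm B i J := by exact_mod_cast nn_insert B i J
      have h4 : w i ≤ 1 / 4 := by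
        refine le_trans ?_ (hsum i hiS)
        exact Finset.single_le_sum (f := w) (fun j hj => hw j (mem_filter.1 hj).1)
          (mem_filter.2 ⟨hiS, hnb i hiS⟩)
      nlinarith
  have h1 := hpos S (Subset.refl _)
  have h2 : 0 < nn B S := by exact_mod_cast h1
  unfold nn at h2
  rw [card_pos] at h2
  obtain ⟨x, hx⟩ := h2
  exact ⟨x, (mem_filter.1 hx).2⟩

end Pool.Agent.Q153.SS
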