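import Mathlib
import Pool.Agent.Q157.SS.Stm

/-!
# Project SS, job SS-wt: the sum of the weights at a vertex
-/

set_option autoImplicit false

namespace Pool.Agent.Q153.SS

open Finset Pool.Agent.Q157.SS

theorem mem_idx {V : Type} [Fintype V] [DecidableEq V] {F : Finset (Finset V)} {D : Finset V}
    {θ : Equiv.Perm V} {i : Finset V × Finset V} :
    i ∈ idx F D θ ↔ (i.1 ∈ F ∧ i.2 ∈ F) ∧ (i.1 ∩ D).image θ = i.2 ∩ D ∧ ¬ i.1 ⊆ D := by
  unfold idx
  rw [mem_filter, mem_product]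

/-- **JOB wt** -/
theorem wt : S_wt := by
  intro C K N t V _ _ F D θ hV hF hFC hDN ht hG a ha
  have ht0 : 0 < t := by omega
  have htR : (0 : ℝ) < t := by exact_mod_cast ht0
  set P := (idx F D θ).filter (fun i => a ∈ i.1) with hP
  have hPm : ∀ i ∈ P, (i.1 ∈ F ∧ i.2 ∈ F) ∧ (i.1 ∩ D).image θ = i.2 ∩ D ∧ ¬ i.1 ⊆ D ∧ a ∈ i.1 := by
    intro i hi
    obtain ⟨h1, h2⟩ := mem_filter.1 hi
    obtain ⟨h3, h4, h5⟩ := mem_idx.1 h1
    exact ⟨h3, h4, h5, h2⟩
  have hcard : ∀ i ∈ P, (i.1 ∩ D).card + (i.1 \ D).card = 3 := by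
    intro i hi
    rw [Finset.card_inter_add_card_sdiff]
    exact hF _ (hPm i hi).1.1
  have hpos : ∀ i ∈ P, 1 ≤ (i.1 \ D).card := by
    intro i hi
    rw [Nat.one_le_iff_ne_zero, Ne, card_eq_zero, sdiff_eq_empty_iff_subset]
    exact (hPm i hi).2.2.1
  have hmap : ∀ i ∈ P, (i.1 \ D).card ∈ Icc 1 3 := by
    intro i hi
    rw [mem_Icc]
    have := hcard i hi
    have := hpos i hi
    omega
  have hV' : (Fintype.card V : ℝ) = (t : ℝ) ^ 2 := by
    rw [hV]
    push_cast
    rfl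
  have hfib : ∑ i ∈ P, 27 * (2 / (Fintype.card V : ℝ)) ^ (i.1 \ D).card =
      ∑ k ∈ Icc 1 3, ((P.filter (fun i => (i.1 \ D).card = k)).card : ℝ) * (27 * (2 / (t : ℝ) ^ 2) ^ k) := by
    rw [← Finset.sum_fiberwise_of_maps_to hmap]
    refine Finset.sum_congr rfl fun k _ => ?_
    rw [← nsmul_eq_mul, ← Finset.sum_const]
    refine Finset.sum_congr rfl fun i hi => ?_
    rw [(mem_filter.1 hi).2, hV']
  rw [hfib]
  have hI : Icc 1 3 = ({1, 2, 3} : Finset ℕ) := by decide
  rw [hI, Finset.sum_insert (by decide), Finset.sum_insert (by decide), Finset.sum_singleton]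
  -- one vertex outside
  have c1 : (P.filter (fun i => (i.1 \ D).card = 1)).card ≤ N ^ 2 * (K * t) := by
    have h1 : P.filter (fun i => (i.1 \ D).card = 1) ⊆
        ((D ×ˢ D).filter (fun q => q.1 ≠ q.2 ∧ cd F q.1 q.2 ≠ 0)).biUnion fun q =>
          ({({q.1, q.2, a} : Finset V)} : Finset (Finset V)) ×ˢ
            (F.filter (fun f => θ q.1 ∈ f ∧ θ q.2 ∈ f)) := by
      intro i hi
      obtain ⟨hi1, hi2⟩ := mem_filter.1 hi
      obtain ⟨⟨h3, h3'⟩, h4, h5, h6⟩ := hPm i hi1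
      have h7 := hcard i hi1
      have h8 : (i.1 ∩ D).card = 2 := by omega
      obtain ⟨u, v, huv, huv'⟩ := card_eq_two.1 h8
      obtain ⟨b, hb⟩ := card_eq_one.1 hi2
      have h9 : a = b := by
        have : a ∈ i.1 \ D := mem_sdiff.2 ⟨h6, ha⟩
        rw [hb, mem_singleton] at this
        exact this
      have hu : u ∈ i.1 ∩ D := by rw [huv']; simp
      have hv : v ∈ i.1 ∩ D := by rw [huv']; simp
      rw [mem_inter] at hu hv
      have h10 : i.1 = {u, v, a} := by
        have h11 : i.1 = (i.1 ∩ D) ∪ (i.1 \ D) := by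
          ext x
          simp only [mem_union, mem_inter, mem_sdiff]
          tauto
        rw [h11, huv', hb, ← h9]
        ext x
        simp only [mem_union, mem_insert, mem_singleton]
        tauto
      rw [mem_biUnion]
      refine ⟨(u, v), ?_, ?_⟩
      · rw [mem_filter, mem_product]
        refine ⟨⟨hu.2, hv.2⟩, huv, ?_⟩
        unfold cd
        rw [Ne, card_eq_zero]
        intro h11
        have : i.1 ∈ F.filter (fun f => u ∈ f ∧ v ∈ f) := mem_filter.2 ⟨h3, hu.1, hv.1⟩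
        rw [h11] at this
        exact absurd this (notMem_empty _)
      · rw [mem_product, mem_singleton, mem_filter]
        refine ⟨h10, h3', ?_, ?_⟩
        · have : θ u ∈ i.2 ∩ D := by
            rw [← h4]
            exact mem_image_of_mem _ (mem_inter.2 hu)
          exact (mem_inter.1 this).1
        · have : θ v ∈ i.2 ∩ D := by
            rw [← h4]
            exact mem_image_of_mem _ (mem_inter.2 hv)
          exact (mem_inter.1 this).1
    refine (card_le_card h1).trans (card_biUnion_le.trans ?_)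
    have h2 : ∀ q ∈ (D ×ˢ D).filter (fun q => q.1 ≠ q.2 ∧ cd F q.1 q.2 ≠ 0),
        (({({q.1, q.2, a} : Finset V)} : Finset (Finset V)) ×ˢ
            (F.filter (fun f => θ q.1 ∈ f ∧ θ q.2 ∈ f))).card ≤ K * t := by
      intro q hq
      obtain ⟨h3, h4, h5⟩ := mem_filter.1 hq
      rw [mem_product] at h3
      rw [card_product, card_singleton, one_mul]
      exact hG.hC q.1 h3.1 q.2 h3.2 h4 h5
    refine (Finset.sum_le_card_nsmul _ _ _ h2).trans ?_
    rw [smul_eq_mul]
    refine Nat.mul_le_mul_right _ ?_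
    refine (card_filter_le _ _).trans ?_
    rw [card_product, sq]
    exact Nat.mul_le_mul hDN hDN
  -- two vertices outside
  have c2 : (P.filter (fun i => (i.1 \ D).card = 2)).card ≤ ∑ v ∈ D, cd F v a * dg F (θ v) := by
    have h1 : P.filter (fun i => (i.1 \ D).card = 2) ⊆
        D.biUnion fun v => (F.filter (fun f => v ∈ f ∧ a ∈ f)) ×ˢ (F.filter (fun f => θ v ∈ f)) := by
      intro i hi
      obtain ⟨hi1, hi2⟩ := mem_filter.1 hi
      obtain ⟨⟨h3, h3'⟩, h4, h5, h6⟩ := hPm i hi1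
      have h7 := hcard i hi1
      have h8 : (i.1 ∩ D).card = 1 := by omega
      obtain ⟨v, hv⟩ := card_eq_one.1 h8
      have hv' : v ∈ i.1 ∩ D := by rw [hv]; simp
      rw [mem_inter] at hv'
      rw [mem_biUnion]
      refine ⟨v, hv'.2, ?_⟩
      rw [mem_product, mem_filter, mem_filter]
      refine ⟨⟨h3, hv'.1, h6⟩, h3', ?_⟩
      have : θ v ∈ i.2 ∩ D := by
        rw [← h4]
        exact mem_image_of_mem _ (mem_inter.2 hv')
      exact (mem_inter.1 this).1
    refine (card_le_card h1).trans (card_biUnion_le.trans (le_of_eq ?_))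
    refine Finset.sum_congr rfl fun v _ => ?_
    rw [card_product]
    rfl
  -- three vertices outside
  have c3 : (P.filter (fun i => (i.1 \ D).card = 3)).card ≤ dg F a * (C * t ^ 3) := by
    have h1 : P.filter (fun i => (i.1 \ D).card = 3) ⊆ (F.filter (fun f => a ∈ f)) ×ˢ F := by
      intro i hi
      obtain ⟨hi1, hi2⟩ := mem_filter.1 hi
      obtain ⟨⟨h3, h3'⟩, h4, h5, h6⟩ := hPm i hi1
      rw [mem_product, mem_filter]
      exact ⟨⟨h3, h6⟩, h3'⟩
    refine (card_le_card h1).trans ?_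
    rw [card_product]
    exact Nat.mul_le_mul_left _ hFC
  have hA := hG.hA a ha
  have hB := hG.hB a ha
  have d1 : ((P.filter (fun i => (i.1 \ D).card = 1)).card : ℝ) * (27 * (2 / (t : ℝ) ^ 2) ^ 1) ≤ 1 / 72 := by
    have h1 : ((P.filter (fun i => (i.1 \ D).card = 1)).card : ℝ) ≤ N ^ 2 * (K * t) := by
      exact_mod_cast c1
    have h2 : (54 * 72 * N ^ 2 * K + 1 : ℝ) ≤ t := by exact_mod_cast ht
    refine (mul_le_mul_of_nonneg_right h1 (by positivity)).trans ?_
    have h3 : (N : ℝ) ^ 2 * (K * t) * (27 * (2 / (t : ℝ) ^ 2) ^ 1) = 54 * N ^ 2 * K / t := by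
      field_simp
      ring
    rw [h3, div_le_iff₀ htR]
    nlinarith
  have d2 : ((P.filter (fun i => (i.1 \ D).card = 2)).card : ℝ) * (27 * (2 / (t : ℝ) ^ 2) ^ 2) ≤ 1 / 72 := by
    have h1 : ((P.filter (fun i => (i.1 \ D).card = 2)).card : ℝ) ≤
        ((∑ v ∈ D, cd F v a * dg F (θ v) : ℕ) : ℝ) := by exact_mod_cast c2
    have h2 : (108 * 72 * ((∑ v ∈ D, cd F v a * dg F (θ v) : ℕ) : ℝ)) ≤ (t : ℝ) ^ 4 := by
      exact_mod_cast hB
    refine (mul_le_mul_of_nonneg_right h1 (by positivity)).trans ?_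
    have h3 : ((∑ v ∈ D, cd F v a * dg F (θ v) : ℕ) : ℝ) * (27 * (2 / (t : ℝ) ^ 2) ^ 2) =
        108 * ((∑ v ∈ D, cd F v a * dg F (θ v) : ℕ) : ℝ) / (t : ℝ) ^ 4 := by
      field_simp
      ring
    rw [h3, div_le_iff₀ (by positivity)]
    linarith
  have d3 : ((P.filter (fun i => (i.1 \ D).card = 3)).card : ℝ) * (27 * (2 / (t : ℝ) ^ 2) ^ 3) ≤ 1 / 72 := by
    have h1 : ((P.filter (fun i => (i.1 \ D).card = 3)).card : ℝ) ≤ dg F a * (C * (t : ℝ) ^ 3) := by
      exact_mod_cast c3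
    have h2 : (216 * 72 * C * dg F a : ℝ) ≤ (t : ℝ) ^ 3 := by exact_mod_cast hA
    refine (mul_le_mul_of_nonneg_right h1 (by positivity)).trans ?_
    have h3 : (dg F a : ℝ) * (C * (t : ℝ) ^ 3) * (27 * (2 / (t : ℝ) ^ 2) ^ 3) =
        216 * C * dg F a / (t : ℝ) ^ 3 := by
      field_simp
      ring
    rw [h3, div_le_iff₀ (by positivity)]
    linarith
  linarith

end Pool.Agent.Q153.SS
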