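import Mathlib
import Pool.Agent.Q157.SS.Stm
import Pool.Agent.Q153.SS.Wt

/-!
# Project SS, job SS-use: the permutation from the local lemma
-/

set_option autoImplicit false

namespace Pool.Agent.Q153.SS

open Finset Pool.Agent.Q157.SS

section

variable {V : Type} [Fintype V] [DecidableEq V] {F : Finset (Finset V)} {D : Finset V}
  {θ : Equiv.Perm V}

theorem inter_card {i : Finset V × Finset V}
    (hi : i ∈ idx F D θ) : (i.1 ∩ D).card = (i.2 ∩ D).card := by
  obtain ⟨-, h, -⟩ := mem_idx.1 hi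
  rw [← h, card_image_of_injective _ θ.injective]

theorem sdiff_card (hF : ∀ f ∈ F, f.card = 3)
    {i : Finset V × Finset V} (hi : i ∈ idx F D θ) : (i.1 \ D).card = (i.2 \ D).card := by
  have h1 := inter_card hi
  obtain ⟨⟨h2, h3⟩, -, -⟩ := mem_idx.1 hi
  have h4 := Finset.card_inter_add_card_sdiff i.1 D
  have h5 := Finset.card_inter_add_card_sdiff i.2 D
  rw [hF _ h2] at h4
  rw [hF _ h3] at h5
  omega

theorem idx_swap (hF : ∀ f ∈ F, f.card = 3) (hinv : ∀ v ∈ D, θ v ∈ D ∧ θ (θ v) = v)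
    {i : Finset V × Finset V} (hi : i ∈ idx F D θ) : (i.2, i.1) ∈ idx F D θ := by
  have h0 := sdiff_card hF hi
  obtain ⟨⟨h2, h3⟩, h4, h5⟩ := mem_idx.1 hi
  rw [mem_idx]
  refine ⟨⟨h3, h2⟩, ?_, ?_⟩
  · show (i.2 ∩ D).image θ = i.1 ∩ D
    rw [← h4, image_image]
    ext x
    rw [mem_image]
    constructor
    · rintro ⟨y, hy, hyx⟩
      have h6 : θ (θ y) = y := (hinv y (mem_inter.1 hy).2).2
      have h7 : (θ ∘ θ) y = y := h6
      rw [h7] at hyx
      rwa [← hyx]
    · intro hx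
      exact ⟨x, hx, (hinv x (mem_inter.1 hx).2).2⟩
  · show ¬ i.2 ⊆ D
    rw [← sdiff_eq_empty_iff_subset, ← card_eq_zero, ← h0, card_eq_zero, sdiff_eq_empty_iff_subset]
    exact h5

end

/-- **JOB use** -/
theorem use (h1 : S_lll) (h2 : S_ev) (h3 : S_wt) : S_use := by
  classical
  intro C K N t V _ _ F D θ hV hF hFC hDN ht htN hG
  set w : Finset V × Finset V → ℝ := fun i => 27 * (2 / (Fintype.card V : ℝ)) ^ (i.1 \ D).card with hw
  have hw0 : ∀ i, 0 ≤ w i := fun i => by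
    simp only [hw]
    positivity
  have ht0 : 0 < t := by omega
  have hcV : 2 * D.card + 4 ≤ Fintype.card V := by
    rw [hV]
    nlinarith
  have hne : Nonempty {g : Equiv.Perm V // ∀ v ∈ D, g v = θ v} := ⟨⟨θ, fun _ _ => rfl⟩⟩
  have hs1 : ∀ a, a ∉ D → ∑ i ∈ (idx F D θ).filter (fun i => a ∈ i.1), w i ≤ 1 / 24 := fun a ha =>
    h3 C K N t V F D θ hV hF hFC hDN ht hG a ha
  have hs2 : ∀ b, b ∉ D → ∑ i ∈ (idx F D θ).filter (fun i => b ∈ i.2), w i ≤ 1 / 24 := by
    intro b hb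
    refine le_trans (le_of_eq ?_) (hs1 b hb)
    apply Finset.sum_bij (fun (i : Finset V × Finset V) _ => (i.2, i.1))
    · intro i hi
      obtain ⟨hi1, hi2⟩ := mem_filter.1 hi
      exact mem_filter.2 ⟨idx_swap hF hG.inv hi1, hi2⟩
    · intro i _ j _ h
      exact Prod.ext (congrArg Prod.snd h) (congrArg Prod.fst h)
    · intro i hi
      obtain ⟨hi1, hi2⟩ := mem_filter.1 hi
      exact ⟨(i.2, i.1), mem_filter.2 ⟨idx_swap hF hG.inv hi1, hi2⟩, rfl⟩
    · intro i hi
      simp only [hw]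
      rw [sdiff_card hF (mem_filter.1 hi).1]
  have hcard3 : ∀ i ∈ idx F D θ, (i.1 \ D).card ≤ 3 ∧ (i.2 \ D).card ≤ 3 := by
    intro i hi
    obtain ⟨⟨h4, h5⟩, -, -⟩ := mem_idx.1 hi
    constructor
    · rw [← hF _ h4]
      exact card_le_card sdiff_subset
    · rw [← hF _ h5]
      exact card_le_card sdiff_subset
  obtain ⟨g, hg⟩ := h1 {g : Equiv.Perm V // ∀ v ∈ D, g v = θ v} (Finset V × Finset V)
    (fun i g => i.1.image g.1 = i.2) w
    (fun i j => ¬ (Disjoint (i.1 \ D) j.1 ∧ Disjoint (i.2 \ D) j.2)) (idx F D θ)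
    (fun i _ => hw0 i) (by
      intro i hi
      obtain ⟨-, -, h5⟩ := mem_idx.1 hi
      rintro ⟨h6, -⟩
      apply h5
      rw [← sdiff_eq_empty_iff_subset, ← disjoint_self_iff_empty]
      exact h6.mono_right sdiff_subset)
    (by
      intro i hi J hJ hnb
      have h4 := h2 V D θ (fun v hv => (hG.inv v hv).1) hcV i.1 i.2 (hF _ (mem_idx.1 hi).1.1) J
        (fun j hj => not_not.1 (hnb j hj))
      have e1 : Nat.card {x : {g : Equiv.Perm V // ∀ v ∈ D, g v = θ v} //
          i.1.image x.1 = i.2 ∧ ∀ j ∈ J, ¬ j.1.image x.1 = j.2} =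
          Nat.card {g : Equiv.Perm V // (∀ v ∈ D, g v = θ v) ∧ i.1.image g = i.2 ∧
            ∀ j ∈ J, j.1.image g ≠ j.2} :=
        Nat.card_congr (Equiv.subtypeSubtypeEquivSubtypeInter (fun g : Equiv.Perm V => ∀ v ∈ D, g v = θ v)
          (fun g : Equiv.Perm V => i.1.image g = i.2 ∧ ∀ j ∈ J, j.1.image g ≠ j.2))
      have e2 : Nat.card {x : {g : Equiv.Perm V // ∀ v ∈ D, g v = θ v} //
          ∀ j ∈ J, ¬ j.1.image x.1 = j.2} =
          Nat.card {g : Equiv.Perm V // (∀ v ∈ D, g v = θ v) ∧ ∀ j ∈ J, j.1.image g ≠ j.2} :=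
        Nat.card_congr (Equiv.subtypeSubtypeEquivSubtypeInter (fun g : Equiv.Perm V => ∀ v ∈ D, g v = θ v)
          (fun g : Equiv.Perm V => ∀ j ∈ J, j.1.image g ≠ j.2))
      rw [← e1, ← e2] at h4
      exact h4)
    (by
      intro i hi
      have h4 : ∑ j ∈ (idx F D θ).filter (fun j => ¬ (Disjoint (i.1 \ D) j.1 ∧ Disjoint (i.2 \ D) j.2)), w j ≤
          ∑ j ∈ idx F D θ, ((∑ a ∈ i.1 \ D, if a ∈ j.1 then w j else 0) +
            ∑ b ∈ i.2 \ D, if b ∈ j.2 then w j else 0) := by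
        rw [Finset.sum_filter]
        refine Finset.sum_le_sum fun j _ => ?_
        have p1 : 0 ≤ ∑ a ∈ i.1 \ D, if a ∈ j.1 then w j else 0 :=
          Finset.sum_nonneg fun a _ => by split_ifs <;> [exact hw0 j; exact le_rfl]
        have p2 : 0 ≤ ∑ b ∈ i.2 \ D, if b ∈ j.2 then w j else 0 :=
          Finset.sum_nonneg fun a _ => by split_ifs <;> [exact hw0 j; exact le_rfl]
        by_cases h5 : Disjoint (i.1 \ D) j.1 ∧ Disjoint (i.2 \ D) j.2
        swap
        · rw [if_pos h5]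
          by_cases h6 : Disjoint (i.1 \ D) j.1
          · have h7 : ¬ Disjoint (i.2 \ D) j.2 := fun h => h5 ⟨h6, h⟩
            rw [not_disjoint_iff] at h7
            obtain ⟨b, hb1, hb2⟩ := h7
            have h8 := Finset.single_le_sum (f := fun b => if b ∈ j.2 then w j else 0)
              (fun a _ => by split_ifs <;> [exact hw0 j; exact le_rfl]) hb1
            simp only [if_pos hb2] at h8
            linarith
          · rw [not_disjoint_iff] at h6
            obtain ⟨b, hb1, hb2⟩ := h6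
            have h8 := Finset.single_le_sum (f := fun b => if b ∈ j.1 then w j else 0)
              (fun a _ => by split_ifs <;> [exact hw0 j; exact le_rfl]) hb1
            simp only [if_pos hb2] at h8
            linarith
        · rw [if_neg (not_not.2 h5)]
          linarith
      refine h4.trans ?_
      rw [Finset.sum_add_distrib, Finset.sum_comm, Finset.sum_comm (s := idx F D θ) (t := i.2 \ D)]
      have q1 : ∑ a ∈ i.1 \ D, ∑ j ∈ idx F D θ, (if a ∈ j.1 then w j else 0) ≤ 3 * (1 / 24) := by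
        have q3 : ∀ a ∈ i.1 \ D, ∑ j ∈ idx F D θ, (if a ∈ j.1 then w j else 0) ≤ 1 / 24 := by
          intro a ha
          rw [← Finset.sum_filter]
          exact hs1 a (mem_sdiff.1 ha).2
        refine (Finset.sum_le_card_nsmul _ _ _ q3).trans ?_
        rw [nsmul_eq_mul]
        have : ((i.1 \ D).card : ℝ) ≤ 3 := by exact_mod_cast (hcard3 i hi).1
        linarith
      have q2 : ∑ a ∈ i.2 \ D, ∑ j ∈ idx F D θ, (if a ∈ j.2 then w j else 0) ≤ 3 * (1 / 24) := by
        have q3 : ∀ a ∈ i.2 \ D, ∑ j ∈ idx F D θ, (if a ∈ j.2 then w j else 0) ≤ 1 / 24 := by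
          intro a ha
          rw [← Finset.sum_filter]
          exact hs2 a (mem_sdiff.1 ha).2
        refine (Finset.sum_le_card_nsmul _ _ _ q3).trans ?_
        rw [nsmul_eq_mul]
        have : ((i.2 \ D).card : ℝ) ≤ 3 := by exact_mod_cast (hcard3 i hi).2
        linarith
      linarith)
  refine ⟨g.1, fun f hf hgf => ?_⟩
  by_cases hfD : f ⊆ D
  · have h4 : f.image g.1 = f.image θ := Finset.image_congr fun v hv => g.2 v (hfD hv)
    rw [h4] at hgf
    exact hG.hD f hf hfD hgf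
  · apply hg (f, f.image g.1) _ rfl
    rw [mem_idx]
    refine ⟨⟨hf, hgf⟩, ?_, hfD⟩
    show (f ∩ D).image θ = f.image g.1 ∩ D
    have hsurj : ∀ x ∈ D, ∃ v ∈ D, θ v = x := fun x hx => ⟨θ x, (hG.inv x hx).1, (hG.inv x hx).2⟩
    ext x
    rw [mem_image, mem_inter, mem_image]
    constructor
    · rintro ⟨v, hv, rfl⟩
      rw [mem_inter] at hv
      exact ⟨⟨v, hv.1, g.2 v hv.2⟩, (hG.inv v hv.2).1⟩
    · rintro ⟨⟨v, hv, hvx⟩, hx⟩
      obtain ⟨u, hu, hux⟩ := hsurj x hx
      have h4 : g.1 u = g.1 v := by rw [g.2 u hu, hux, hvx]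
      have h5 : u = v := g.1.injective h4
      rw [h5] at hu hux
      exact ⟨v, mem_inter.2 ⟨hv, hu⟩, hux⟩

end Pool.Agent.Q153.SS
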